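import Pool.Agent.Helper61.Tri.Goals2

set_option autoImplicit false

open Finset

namespace Pool.Agent.Helper31.Tri

open scoped Classical
open Pool.Agent.Helper61.Tri

theorem mem_Qs {V : Type} [Fintype V] {G : SimpleGraph V} {X : Finset V} {v : V} :
    v ∈ Qs G X ↔ v ∉ X ∧ (∀ x ∈ X, G.Adj v x) ∧
      (Fintype.card V : ℝ) / 10 ≤ ((nb G v).card : ℝ) := by
  simp [Qs]

theorem exists_pair {V : Type} {T : Finset V} {d : V} (hd : d ∈ T) :
    ∃ d' ∈ T, d = d' → T = {d} := by
  by_cases h : T = {d}
  · exact ⟨d, hd, fun _ => h⟩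
  · obtain ⟨d', hd', hne⟩ : ∃ d' ∈ T, d' ≠ d := by
      by_contra hcon
      push Not at hcon
      exact h (Finset.eq_singleton_iff_unique_mem.2 ⟨hd, hcon⟩)
    exact ⟨d', hd', fun h => absurd h.symm hne⟩

theorem codd : EPTools → LinkX → COdd := by
  intro tools link s hs
  obtain ⟨n1, hn1⟩ := link s (16 * s + 100) (by omega)
  refine ⟨16 * s + 100, n1 + 40 * (s + 6), fun V _ hV G X hX G' hG' => ?_⟩
  obtain ⟨hQ, hQc, hL⟩ := hn1 V (by omega) G X hX
  have hcard := hX.card
  have hadj : ∀ {u v}, G'.Adj u v → G.Adj u v ∧ u ∉ X ∧ v ∉ X := by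
    intro u v h
    rw [hG'] at h
    exact ⟨h.1, by simpa using h.2.1, by simpa using h.2.2⟩
  refine ⟨?_, ?_, ?_⟩
  · intro p a b d hpa hpb hab hd hpd
    obtain ⟨hpa, hpX, haX⟩ := hadj hpa
    obtain ⟨hpb, -, hbX⟩ := hadj hpb
    obtain ⟨hab, -, -⟩ := hadj hab
    obtain ⟨d', hd', hdd⟩ := exists_pair hd
    obtain ⟨z, hz, hzn⟩ : ∃ z ∈ Qs G X, z ∉ ({p, a, b} : Finset V) := by
      have : ({p, a, b} : Finset V).card < (Qs G X).card :=
        lt_of_le_of_lt Finset.card_le_three (by omega)
      exact Finset.exists_mem_notMem_of_card_lt_card this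
    have hzX := (mem_Qs.1 hz).1
    simp only [Finset.mem_insert, Finset.mem_singleton, not_or] at hzn
    obtain ⟨S', hS', hdis⟩ := hL X {a, b} d d' p z subset_rfl hd hd' hdd (Ne.symm hzn.1) hpX hzX hpd
      (hQ z hz d' hd') (by have := Finset.card_le_two (a := a) (b := b); omega)
      (by simp [hpa.ne, hpb.ne]) (by simp [hzn.2.1, hzn.2.2])
      (by
        rw [Finset.disjoint_left]
        intro y hy
        simp only [Finset.mem_insert, Finset.mem_singleton] at hy
        rcases hy with rfl | rfl <;> assumption)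
    have h1 := tools.trans (tools.single hpa.symm hab hpb) hS' (by
      intro y hy
      rw [Finset.mem_inter] at hy
      simp only [Finset.mem_insert, Finset.mem_singleton] at hy ⊢
      have := Finset.disjoint_left.1 hdis
      rcases hy.1 with rfl | rfl | rfl
      · exact absurd hy.2 (this (by simp))
      · rfl
      · exact absurd hy.2 (this (by simp)))
    rw [hcard, add_comm] at h1
    exact ⟨_, _, _, h1⟩
  · intro p q r d d' hpq hpr hqr hd hd' hne hpd hqd
    obtain ⟨hpq, hpX, hqX⟩ := hadj hpq
    obtain ⟨hpr, -, hrX⟩ := hadj hpr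
    obtain ⟨hqr, -, -⟩ := hadj hqr
    obtain ⟨S', hS', hdis⟩ := hL X {r} d' d q p subset_rfl hd' hd (fun h => absurd h.symm hne)
      hpq.ne.symm hqX hpX hqd hpd (by simp; omega) (by simp [hqr.ne]) (by simp [hpr.ne])
      (by simpa using hrX)
    have h1 := tools.close (tools.single hpq hpr hqr) hS' (by
      intro y hy
      rw [Finset.mem_inter] at hy
      simp only [Finset.mem_insert, Finset.mem_singleton] at hy ⊢
      have := Finset.disjoint_left.1 hdis
      rcases hy.1 with rfl | rfl | rfl
      · exact Or.inl rfl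
      · exact Or.inr rfl
      · exact absurd hy.2 (this (by simp))) le_rfl (by omega)
    rw [hcard, add_comm] at h1
    exact h1
  · intro p p1 q1 p2 q2 h1 h2 h3 h4 h5 h6 hq1 hq2 hqq hpp hpq hqp
    obtain ⟨h1, hpX, hp1X⟩ := hadj h1
    obtain ⟨h2, -, hq1X⟩ := hadj h2
    obtain ⟨h3, -, -⟩ := hadj h3
    obtain ⟨h4, -, hp2X⟩ := hadj h4
    obtain ⟨h5, -, hq2X⟩ := hadj h5
    obtain ⟨h6, -, -⟩ := hadj h6
    obtain ⟨e, he⟩ : X.Nonempty := Finset.card_pos.1 (by omega)
    have hTc : (X.erase e).card = s - 1 := by rw [Finset.card_erase_of_mem he, hcard]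
    obtain ⟨d, hd⟩ : (X.erase e).Nonempty := Finset.card_pos.1 (by omega)
    obtain ⟨d', hd', hdd⟩ := exists_pair hd
    -- the vertex z
    obtain ⟨z, hz, hzn⟩ : ∃ z ∈ (nb G q1).filter (fun v => v ∈ Qs G X),
        z ∉ ({p, p1, p2, q1, q2} : Finset V) := by
      have h10 : (Fintype.card V : ℝ) / 10 ≤ ((nb G q1).card : ℝ) := (mem_Qs.1 hq1).2.2
      have hsub : nb G q1 ⊆ (nb G q1).filter (fun v => v ∈ Qs G X) ∪ X ∪ Us G X := by
        intro y hy
        simp only [Finset.mem_union, Finset.mem_filter]
        by_cases hyX : y ∈ X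
        · exact Or.inl (Or.inr hyX)
        · by_cases hyQ : y ∈ Qs G X
          · exact Or.inl (Or.inl ⟨hy, hyQ⟩)
          · exact Or.inr (by simp [Us, hyX, hyQ])
      have hc1 : (nb G q1).card ≤
          ((nb G q1).filter (fun v => v ∈ Qs G X)).card + X.card + (Us G X).card :=
        (Finset.card_le_card hsub).trans ((Finset.card_union_le _ _).trans
          (Nat.add_le_add_right (Finset.card_union_le _ _) _))
      have hfew := hX.few
      have hc2 : ((nb G q1).card : ℝ) ≤
          (((nb G q1).filter (fun v => v ∈ Qs G X)).card : ℝ) + s + ((Us G X).card : ℝ) := by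
        rw [hcard] at hc1
        exact_mod_cast hc1
      have hV' : (40 : ℝ) * (s + 6) ≤ (Fintype.card V : ℝ) := by
        have : 40 * (s + 6) ≤ Fintype.card V := le_trans (Nat.le_add_left _ _) hV
        exact_mod_cast this
      have hlt : ((5 : ℕ) : ℝ) < (((nb G q1).filter (fun v => v ∈ Qs G X)).card : ℝ) := by
        have hs0 : (0 : ℝ) ≤ s := Nat.cast_nonneg s
        push_cast
        linarith
      have hlt' : 5 < ((nb G q1).filter (fun v => v ∈ Qs G X)).card := by exact_mod_cast hlt
      have h5c := Finset.card_le_five (a := p) (b := p1) (c := p2) (d := q1) (e := q2)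
      exact Finset.exists_mem_notMem_of_card_lt_card (lt_of_le_of_lt h5c hlt')
    rw [Finset.mem_filter] at hz
    obtain ⟨hzn1, hzQ⟩ := hz
    have hzadj : G.Adj q1 z := by simpa [nb] using hzn1
    have hzX := (mem_Qs.1 hzQ).1
    simp only [Finset.mem_insert, Finset.mem_singleton, not_or] at hzn
    obtain ⟨hzp, hzp1, hzp2, hzq1, hzq2⟩ := hzn
    have hdX : d ∈ X := Finset.mem_of_mem_erase hd
    have hdX' : d' ∈ X := Finset.mem_of_mem_erase hd'
    have hneX : ∀ {y : V}, y ∉ X → y ≠ e := fun hy h => hy (h ▸ he)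
    obtain ⟨S', hS', hdis⟩ := hL (X.erase e) {q1, p, p1, p2, e} d d' q2 z
      (Finset.erase_subset _ _) hd hd' hdd (Ne.symm hzq2) hq2X hzX (hQ q2 hq2 d hdX)
      (hQ z hzQ d' hdX')
      (by
        have := Finset.card_le_five (a := q1) (b := p) (c := p1) (d := p2) (e := e)
        omega)
      (by
        simp only [Finset.mem_insert, Finset.mem_singleton, not_or]
        exact ⟨hqq.symm, h5.ne.symm, hpq.symm, h6.ne.symm, hneX hq2X⟩)
      (by
        simp only [Finset.mem_insert, Finset.mem_singleton, not_or]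
        exact ⟨hzq1, hzp, hzp1, hzp2, hneX hzX⟩)
      (by
        rw [Finset.disjoint_left]
        intro y hy hyT
        have hyX := Finset.mem_of_mem_erase hyT
        have hye := Finset.ne_of_mem_erase hyT
        simp only [Finset.mem_insert, Finset.mem_singleton] at hy
        rcases hy with rfl | rfl | rfl | rfl | rfl
        · exact hq1X hyX
        · exact hpX hyX
        · exact hp1X hyX
        · exact hp2X hyX
        · exact hye rfl)
    have hdis' := Finset.disjoint_left.1 hdis
    have k1 := tools.trans (tools.single h2.symm h3.symm h1) (tools.single h5 h4 h6.symm) (by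
      intro y hy
      rw [Finset.mem_inter] at hy
      simp only [Finset.mem_insert, Finset.mem_singleton] at hy ⊢
      obtain ⟨ha, hb⟩ := hy
      rcases ha with rfl | rfl | rfl
      · rcases hb with hb | hb | hb
        · exact absurd hb h2.ne.symm
        · exact absurd hb hqq
        · exact absurd hb.symm hqp
      · rfl
      · rcases hb with hb | hb | hb
        · exact absurd hb h1.ne.symm
        · exact absurd hb hpq
        · exact absurd hb hpp)
    have k2 := tools.trans k1 hS' (by
      intro y hy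
      rw [Finset.mem_inter] at hy
      simp only [Finset.mem_union, Finset.mem_insert, Finset.mem_singleton] at hy ⊢
      obtain ⟨ha, hb⟩ := hy
      by_contra hne
      refine hdis' ?_ hb
      simp only [Finset.mem_insert, Finset.mem_singleton]
      tauto)
    have k3 := tools.close k2 (tools.single hzadj.symm ((mem_Qs.1 hzQ).2.1 e he)
      ((mem_Qs.1 hq1).2.1 e he)) (by
      intro y hy
      rw [Finset.mem_inter] at hy
      obtain ⟨ha, hb⟩ := hy
      simp only [Finset.mem_insert, Finset.mem_singleton] at hb ⊢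
      rcases hb with rfl | rfl | rfl
      · exact Or.inr rfl
      · exact Or.inl rfl
      · exfalso
        rw [Finset.mem_union] at ha
        rcases ha with ha | ha
        · simp only [Finset.mem_union, Finset.mem_insert, Finset.mem_singleton] at ha
          rcases ha with (rfl | rfl | rfl) | (rfl | rfl | rfl) <;> contradiction
        · exact hdis' (by simp) ha) (by omega) le_rfl
    have he2 : 1 + 1 + 2 * (X.erase e).card + 1 = 2 * s + 1 := by omega
    rw [he2] at k3
    exact k3

end Pool.Agent.Helper31.Tri
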